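import Pool.Agent.TH61.TDLimit

/-!
# Infinite countable groups of transitivity degree `p - 1`

For every `k ≥ 2` such that `k + 1` is prime there is an infinite countable group of transitivity
degree exactly `k`.

The group is a union of finite groups `G 0 ⊂ G 1 ⊂ ...` of order prime to `p = k + 1`, acting on
finite sets `X 0 ⊂ X 1 ⊂ ...`.  Given `(G n, X n)`, choose a prime `q > |X n|` that is a primitive
root modulo `p`; the group `A` of linear automorphisms of `V = F_q ^ k` that preserve one coordinate
has order prime to `p` and fuses all `k`-tuples of distinct vectors of the moment curve, and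
`G (n + 1)` is the regular wreath product `A wr G n` acting on `X (n + 1) = (G n → V)`.
-/

set_option autoImplicit false

namespace Pool.Agent.Results.MP_3ae405_al.PrimeMinusOne

open Pool.Agent.TH61.TD

theorem result (k : ℕ) (hk2 : 2 ≤ k) (hk : (k + 1).Prime) :
    ∃ (G : Type) (_ : Group G), Infinite G ∧ Countable G ∧
      (∃ (X : Type) (_ : MulAction G X),
          Nonempty (Fin k ↪ X) ∧
          (∀ g : G, (∀ x : X, g • x = x) → g = 1) ∧
          ∀ x y : Fin k ↪ X, ∃ g : G, ∀ i, g • x i = y i) ∧
      ∀ (X : Type) (_ : MulAction G X),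
          Nonempty (Fin (k + 1) ↪ X) →
          ¬ ∀ x y : Fin (k + 1) ↪ X, ∃ g : G, ∀ i, g • x i = y i := by
  classical
  have hnext := fun s : Stage k => exists_next hk2 hk s
  choose nxt nhom hcard hfuse using hnext
  let s0 : Stage k := ⟨PUnit, inferInstance, ⊥, 1, by simp, by
    intro g hg
    rw [Subgroup.mem_bot] at hg
    rw [hg, one_pow]⟩
  let S : ℕ → Stage k := fun n => Nat.rec s0 (fun _ s => nxt s) n
  let J : ∀ n, Stage.Hom (S n) (S (n + 1)) := fun n => nhom (S n)
  have hX : Infinite (LimX S J) := lim_infinite_X S J fun n => hcard (S n)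
  have hemb : Nonempty (Fin k ↪ LimX S J) :=
    ⟨Fin.valEmbedding.trans (Infinite.natEmbedding (LimX S J))⟩
  have htr : ∀ x y : Fin k ↪ LimX S J, ∃ g : LimG S J, ∀ i, g • x i = y i :=
    fun x y => lim_fuse S J (fun n => hfuse (S n)) x y
  have hG : Infinite (LimG S J) := by
    have h0 : 0 < k := by omega
    obtain ⟨e⟩ := hemb
    have hs : ∀ y : LimX S J, ∃ g : LimG S J, g • e ⟨0, h0⟩ = y := by
      intro y
      obtain ⟨g, hg⟩ := htr e (e.trans (Equiv.swap (e ⟨0, h0⟩) y).toEmbedding)
      refine ⟨g, ?_⟩
      rw [hg]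
      simp
    exact Infinite.of_surjective (fun g : LimG S J => g • e ⟨0, h0⟩) hs
  refine ⟨LimG S J, inferInstance, hG, lim_countable_G S J,
    ⟨LimX S J, inferInstance, hemb, lim_faithful S J, htr⟩, ?_⟩
  intro X _ hne
  exact no_transitive (lim_expo S J) (by omega) hne

end Pool.Agent.Results.MP_3ae405_al.PrimeMinusOne
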